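import Pool.Agent.MP_75da70_an.H54.CubeB
import Pool.Agent.MP_75da70_an.H65.Ses

/-
The cube spaces: for every n a neighbourhood assignment of height at most n + 2 one of whose
n-th syzygies is not projective.
-/

namespace Pool.Agent.MP_75da70_an.H8

theorem exists_cube (n : ℕ) : ∃ (Ω : Type) (_ : TopologicalSpace Ω) (_ : CompactSpace Ω)
    (_ : T2Space Ω) (_ : TotallyDisconnectedSpace Ω) (P : PS Ω),
    P.H ≤ n + 2 ∧ ∃ j, ¬ Pj (P.Zs (P.L j) n) :=
  exists_cube_of (fun _ _ _ _ _ P B k => P.ses_Zs B k) n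

end Pool.Agent.MP_75da70_an.H8
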