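import Pool.Agent.MP_75da70_an.H8.PDefs

/-
The cube space, free points and the fundamental cycle of a cube.
-/

namespace Pool.Agent.MP_75da70_an.H8

open Filter Topology Set H7

section Free

/-- a free point for a finite valued set mapping. -/
theorem cube_free {D : Type} (m : ℕ) : ∀ (A : Set D), Cardinal.aleph (m : Ordinal.{0}) ≤ Cardinal.mk A →
    ∀ G : (Fin (m + 1) → Option D) → Finset D, ∃ x : Fin (m + 1) → D, (∀ i, x i ∈ A) ∧
      ∀ q : Fin (m + 1) → Option D, (∀ i, q i = none ∨ q i = some (x i)) →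
        ∀ i, q i = none → x i ∉ G q := by
  classical
  induction m with
  | zero =>
    intro A hA G
    have hinf : A.Infinite := by
      rw [← Set.infinite_coe_iff, Cardinal.infinite_iff]
      exact (Cardinal.aleph0_le_aleph _).trans hA
    obtain ⟨y, hy, hyG⟩ := hinf.exists_notMem_finset (G fun _ => none)
    refine ⟨fun _ => y, fun _ => hy, fun q _ i hi => ?_⟩
    have : q = fun _ => none := by
      funext k
      rw [Subsingleton.elim (α := Fin 1) k i, hi]
    rw [this]
    exact hyG
  | succ m ih =>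
    intro A hA G
    have hlt : Cardinal.aleph (m : Ordinal.{0}) < Cardinal.aleph ((m + 1 : ℕ) : Ordinal.{0}) := by
      rw [Cardinal.aleph_lt_aleph]
      exact_mod_cast Nat.lt_succ_self m
    obtain ⟨A', hA'A, hA'⟩ := Cardinal.le_mk_iff_exists_subset.mp (hlt.le.trans hA)
    have h0 : Cardinal.aleph0 ≤ Cardinal.aleph (m : Ordinal.{0}) := Cardinal.aleph0_le_aleph _
    let bad : Set D := ⋃ q' : Fin (m + 1) → Option A',
      (G (Fin.cons none fun i => (q' i).map Subtype.val) : Set D)
    have hbad : Cardinal.mk bad ≤ Cardinal.aleph (m : Ordinal.{0}) := by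
      refine (Cardinal.mk_iUnion_le _).trans ?_
      have h1 : Cardinal.mk (Fin (m + 1) → Option A') ≤ Cardinal.aleph (m : Ordinal.{0}) := by
        rw [Cardinal.mk_arrow]
        simp only [Cardinal.mk_option, hA', Cardinal.lift_id, Cardinal.mk_fin]
        rw [Cardinal.add_one_eq h0]
        exact (Cardinal.power_natCast _ _).le.trans (Cardinal.power_nat_le h0)
      have h2 : (⨆ q' : Fin (m + 1) → Option A', Cardinal.mk
          (G (Fin.cons none fun i => (q' i).map Subtype.val) : Set D)) ≤
          Cardinal.aleph (m : Ordinal.{0}) :=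
        ciSup_le' fun q' => ((Finset.finite_toSet _).lt_aleph0.le).trans h0
      exact (mul_le_mul' h1 h2).trans (Cardinal.mul_eq_self h0).le
    obtain ⟨y, hyA, hy⟩ : ∃ y ∈ A, y ∉ bad := by
      by_contra h
      push Not at h
      exact absurd ((Cardinal.mk_le_mk_of_subset (show A ⊆ bad from h)).trans hbad)
        (not_le.mpr (hlt.trans_le hA))
    obtain ⟨x', hx'A, hx'⟩ := ih A' hA'.ge
      fun q' => G (Fin.cons none q') ∪ G (Fin.cons (some y) q')
    refine ⟨Fin.cons y x', fun i => ?_, fun q hq i hi => ?_⟩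
    · refine Fin.cases ?_ (fun i => ?_) i
      · exact hyA
      · exact hA'A (hx'A i)
    · have hq' : ∀ i, Fin.tail q i = none ∨ Fin.tail q i = some (x' i) := fun i => by
        simpa [Fin.tail] using hq i.succ
      revert hi
      refine Fin.cases (fun hi => ?_) (fun i hi => ?_) i
      · intro hG
        refine hy (mem_iUnion.mpr ⟨fun i => if Fin.tail q i = none then none
          else some ⟨x' i, hx'A i⟩, ?_⟩)
        have : (Fin.cons none fun i => (if Fin.tail q i = none then none
            else some (⟨x' i, hx'A i⟩ : A')).map Subtype.val : Fin (m + 2) → Option D) = q := by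
          rw [← Fin.cons_self_tail q, hi]
          congr 1
          funext k
          rcases hq' k with h | h <;> simp [h]
        rw [this]
        exact hG
      · have h1 := hx' (Fin.tail q) hq' i hi
        rw [Finset.mem_union, not_or] at h1
        rw [Fin.cons_succ, ← Fin.cons_self_tail q]
        rcases hq 0 with h | h
        · rw [h]; exact h1.1
        · rw [h]; exact h1.2

end Free

section Cycle

variable {T : Type} {ι : Type} [LinearOrder ι]

theorem cube_dF_cone (x : T) {ζ : FL T} (hζ : ζ ∈ Finsupp.supported ℂ ℂ {c : List T | c ≠ []}) :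
    dF (cone x ζ) = ζ - cone x (dF ζ) := by
  rw [Finsupp.supported_eq_span_single] at hζ
  induction hζ using Submodule.span_induction with
  | mem _ h =>
    obtain ⟨c, hc, rfl⟩ := h
    obtain ⟨y, l, rfl⟩ := List.exists_cons_of_ne_nil hc
    simp [cone, dF, dB]
  | zero => simp
  | add a b _ _ ha hb => simp only [map_add, ha, hb]; abel
  | smul r a _ ha => simp only [map_smul, ha, smul_sub]

/-- the Koszul sign. -/
noncomputable def cubeSg (S : Finset ι) (i : ι) : ℂ := (-1) ^ (S.filter (· < i)).card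

theorem cubeSg_ne (S : Finset ι) (i : ι) : cubeSg S i ≠ 0 := pow_ne_zero _ (by norm_num)

theorem cubeSg_lt {S : Finset ι} {i j : ι} (hi : i ∈ S) (hij : i < j) :
    cubeSg S i * cubeSg (S.erase i) j = -(cubeSg S j * cubeSg (S.erase j) i) := by
  have h1 : (S.erase j).filter (· < i) = S.filter (· < i) := by
    ext k
    simp only [Finset.mem_filter, Finset.mem_erase]
    exact ⟨fun h => ⟨h.1.2, h.2⟩, fun h => ⟨⟨(h.2.trans hij).ne, h.1⟩, h.2⟩⟩
  have h2 : (S.erase i).filter (· < j) = (S.filter (· < j)).erase i := by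
    ext k
    simp only [Finset.mem_filter, Finset.mem_erase]
    tauto
  have h3 : (S.filter (· < j)).card = ((S.filter (· < j)).erase i).card + 1 :=
    (Finset.card_erase_add_one (Finset.mem_filter.mpr ⟨hi, hij⟩)).symm
  unfold cubeSg
  rw [h1, h2, h3]
  ring

theorem cubeSg_anti {S : Finset ι} {i j : ι} (hi : i ∈ S) (hj : j ∈ S) (hij : i ≠ j) :
    cubeSg S i * cubeSg (S.erase i) j = -(cubeSg S j * cubeSg (S.erase j) i) := by
  rcases lt_or_gt_of_ne hij with h | h
  · exact cubeSg_lt hi h
  · rw [cubeSg_lt hj h, neg_neg]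

/-- the fundamental chain of a cube. -/
noncomputable def cubeCh (e : Finset ι → T) : ℕ → Finset ι → FL T
  | 0, S => Finsupp.single [e S] 1
  | k + 1, S => cone (e S) (∑ i ∈ S, cubeSg S i • cubeCh e k (S.erase i))

/-- its boundary. -/
noncomputable def cubeCy (e : Finset ι → T) : ℕ → Finset ι → FL T
  | 0, _ => 0
  | k + 1, S => ∑ i ∈ S, cubeSg S i • cubeCh e k (S.erase i)

theorem cube_cone_supp {x : T} {s s' : Set (List T)} (h : ∀ c ∈ s, x :: c ∈ s') {ζ : FL T}
    (hζ : ζ ∈ Finsupp.supported ℂ ℂ s) : cone x ζ ∈ Finsupp.supported ℂ ℂ s' := by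
  rw [Finsupp.supported_eq_span_single] at hζ
  induction hζ using Submodule.span_induction with
  | mem _ hc =>
    obtain ⟨c, hc, rfl⟩ := hc
    simp only [cone, Finsupp.lmapDomain_apply, Finsupp.mapDomain_single]
    exact Finsupp.single_mem_supported _ _ (h c hc)
  | zero => simp
  | add a b _ _ ha hb => rw [map_add]; exact Submodule.add_mem _ ha hb
  | smul r a _ ha => rw [map_smul]; exact Submodule.smul_mem _ _ ha

variable {le : T → T → Prop} {B : Set T} {e : Finset ι → T}

theorem cubeCh_supp (he : Function.Injective e) (hm : ∀ S i, le (e (S.erase i)) (e S))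
    (h0 : e ∅ ∈ B) : ∀ (k : ℕ) (S : Finset ι), S.card = k → cubeCh e k S ∈ Finsupp.supported ℂ ℂ
      {c | IsCh le B c ∧ c.length = k + 1 ∧ ∃ t, c = e S :: t}
  | 0, S, hS => by
    rw [Finset.card_eq_zero] at hS
    subst hS
    exact Finsupp.single_mem_supported _ _ ⟨h0, rfl, [], rfl⟩
  | k + 1, S, hS => by
    refine cube_cone_supp (s := {c | ∃ i ∈ S, IsCh le B c ∧ c.length = k + 1 ∧
      ∃ t, c = e (S.erase i) :: t}) ?_ (Submodule.sum_mem _ fun i hi => Submodule.smul_mem _ _ ?_)
    · rintro c ⟨i, hi, hc, hl, t, rfl⟩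
      refine ⟨⟨⟨hm S i, fun h => ?_⟩, hc⟩, by simpa using hl, _, rfl⟩
      exact Finset.erase_ne_self.mpr hi (he h).symm
    · refine Finsupp.supported_mono ?_ (cubeCh_supp he hm h0 k (S.erase i)
        (by rw [Finset.card_erase_of_mem hi, hS]; rfl))
      exact fun c hc => ⟨i, hi, hc⟩

theorem cubeCy_supp (he : Function.Injective e) (hm : ∀ S i, le (e (S.erase i)) (e S))
    (h0 : e ∅ ∈ B) (k : ℕ) (S : Finset ι) (hS : S.card = k + 1) :
    cubeCy e (k + 1) S ∈ Finsupp.supported ℂ ℂ
      {c | ∃ i ∈ S, IsCh le B c ∧ c.length = k + 1 ∧ ∃ t, c = e (S.erase i) :: t} := by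
  refine Submodule.sum_mem _ fun i hi => Submodule.smul_mem _ _ ?_
  refine Finsupp.supported_mono ?_ (cubeCh_supp he hm h0 k (S.erase i)
    (by rw [Finset.card_erase_of_mem hi, hS]; rfl))
  exact fun c hc => ⟨i, hi, hc⟩

theorem cubeCh_ne_nil (e : Finset ι → T) : ∀ (k : ℕ) (S : Finset ι),
    cubeCh e k S ∈ Finsupp.supported ℂ ℂ {c : List T | c ≠ []}
  | 0, S => Finsupp.single_mem_supported _ _ (List.cons_ne_nil _ _)
  | k + 1, S => cube_cone_supp (s := univ) (fun c _ => List.cons_ne_nil _ _) (by simp)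

theorem cube_dF (e : Finset ι → T) : ∀ (k : ℕ) (S : Finset ι),
    dF (cubeCh e k S) = cubeCy e k S ∧ dF (cubeCy e (k + 1) S) = 0
  | 0, S => by
    have : ∀ S, dF (cubeCh e 0 S) = 0 := fun S => by simp [cubeCh, dF, dB]
    exact ⟨this S, by simp [cubeCy, this]⟩
  | k + 1, S => by
    have h1 : ∀ S, dF (cubeCh e (k + 1) S) = cubeCy e (k + 1) S := fun S => by
      have := (cube_dF e k S).2
      change dF (cone (e S) (cubeCy e (k + 1) S)) = _
      rw [cube_dF_cone, this, map_zero, sub_zero]
      exact Submodule.sum_mem _ fun i _ => Submodule.smul_mem _ _ (cubeCh_ne_nil e k _)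
    refine ⟨h1 S, ?_⟩
    have h2 : dF (cubeCy e (k + 2) S) = ∑ i ∈ S, ∑ j ∈ S.erase i,
        (cubeSg S i * cubeSg (S.erase i) j) • cubeCh e k ((S.erase i).erase j) := by
      simp only [cubeCy, map_sum, map_smul, h1, Finset.smul_sum, smul_smul]
    have h3 : ∑ i ∈ S, ∑ j ∈ S.erase i,
        (cubeSg S i * cubeSg (S.erase i) j) • cubeCh e k ((S.erase i).erase j) =
        -∑ i ∈ S, ∑ j ∈ S.erase i,
        (cubeSg S i * cubeSg (S.erase i) j) • cubeCh e k ((S.erase i).erase j) := by
      conv_lhs => rw [Finset.sum_comm' (t' := S) (s' := fun j => S.erase j)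
        (fun i j => by simp only [Finset.mem_erase]; tauto)]
      rw [← Finset.sum_neg_distrib]
      refine Finset.sum_congr rfl fun j hj => ?_
      rw [← Finset.sum_neg_distrib]
      refine Finset.sum_congr rfl fun i hi => ?_
      rw [Finset.mem_erase] at hi
      rw [cubeSg_anti hi.2 hj hi.1, Finset.erase_right_comm, neg_smul]
    rw [h2]
    have h4 := eq_neg_iff_add_eq_zero.mp h3
    rw [← two_smul ℂ] at h4
    exact (smul_eq_zero.mp h4).resolve_left two_ne_zero

theorem cube_ne_zero (he : Function.Injective e) (hm : ∀ S i, le (e (S.erase i)) (e S))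
    (h0 : e ∅ ∈ B) : ∀ (k : ℕ) (S : Finset ι), S.card = k → cubeCh e k S ≠ 0
  | 0, S, _ => Finsupp.single_ne_zero.mpr one_ne_zero
  | k + 1, S, hS => by
    intro h
    have hz : ∑ i ∈ S, cubeSg S i • cubeCh e k (S.erase i) = 0 :=
      Finsupp.mapDomain_injective (List.cons_injective (a := e S))
        (h.trans Finsupp.mapDomain_zero.symm)
    obtain ⟨i, hi⟩ := Finset.card_pos.mp (by omega : 0 < S.card)
    have hc : ∀ j ∈ S, (S.erase j).card = k := fun j hj => by
      rw [Finset.card_erase_of_mem hj, hS]; rfl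
    obtain ⟨c, hc0⟩ := Finsupp.ne_iff.mp (cube_ne_zero he hm h0 k _ (hc i hi))
    have hci : ∃ t, c = e (S.erase i) :: t := by
      by_contra hn
      exact hc0 ((Finsupp.mem_supported' _ _).mp (cubeCh_supp (le := le) he hm h0 k _ (hc i hi)) c
        fun hh => hn hh.2.2)
    have := DFunLike.congr_fun hz c
    rw [Finsupp.finsetSum_apply, Finset.sum_eq_single_of_mem i hi] at this
    · exact mul_ne_zero (cubeSg_ne S i) hc0 this
    · intro j hj hji
      have : cubeCh e k (S.erase j) c = 0 := by
        refine (Finsupp.mem_supported' _ _).mp (cubeCh_supp (le := le) he hm h0 k _ (hc j hj)) c ?_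
        rintro ⟨-, -, t, ht⟩
        obtain ⟨t', rfl⟩ := hci
        have := he (List.cons.inj ht).1
        exact hji ((Finset.erase_inj S hj).mp this.symm)
      rw [Finsupp.smul_apply, this, smul_zero]

/-- a nonzero cycle made of chains with `k + 1` entries whose head is not the top. -/
theorem cube_cycle (he : Function.Injective e) (hm : ∀ S i, le (e (S.erase i)) (e S))
    (h0 : e ∅ ∈ B) (k : ℕ) (S : Finset ι) (hS : S.card = k + 1) :
    ∃ ζ : FL T, ζ ≠ 0 ∧ ζ ∈ Zf le B k (e S) ∧ ∀ c, ζ c ≠ 0 →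
      ∃ i ∈ S, IsCh le B c ∧ c.length = k + 1 ∧ ∃ t, c = e (S.erase i) :: t := by
  have hs := cubeCy_supp (le := le) he hm h0 k S hS
  refine ⟨cubeCy e (k + 1) S, fun h => ?_, ⟨Finsupp.supported_mono ?_ hs, (cube_dF e k S).2⟩,
    fun c hc => ?_⟩
  · refine cube_ne_zero (le := le) he hm h0 (k + 1) S hS ?_
    change cone (e S) (cubeCy e (k + 1) S) = 0
    rw [h, map_zero]
  · rintro c ⟨i, hi, hc, hl, t, rfl⟩
    refine ⟨⟨hc, hl, _, _, rfl, hm S i⟩, fun h => ?_⟩
    exact Finset.erase_ne_self.mpr hi (he (List.cons.inj h).1)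
  · by_contra hn
    exact hc ((Finsupp.mem_supported' _ _).mp hs c hn)

end Cycle

section Space

open OnePoint

variable {D : Type} [TopologicalSpace D] [DiscreteTopology D] {ι : Type} [Fintype ι]

/-- the face through a point. -/
def cubeV (q : ι → OnePoint D) : Set (ι → OnePoint D) := {x | ∀ i, q i ≠ ∞ → x i = q i}

open Classical in
/-- the set of infinite coordinates. -/
noncomputable def cubeI (q : ι → OnePoint D) : Finset ι := Finset.univ.filter fun i => q i = ∞

omit [TopologicalSpace D] [DiscreteTopology D] in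
theorem mem_cubeI {q : ι → OnePoint D} {i : ι} : i ∈ cubeI q ↔ q i = ∞ := by simp [cubeI]

omit [TopologicalSpace D] [DiscreteTopology D] in
theorem cube_eq_of {x y z : ι → OnePoint D} (hx : z ∈ cubeV x) (hy : z ∈ cubeV y)
    (h : cubeI x = cubeI y) : x = y := by
  funext i
  by_cases hi : x i = ∞
  · have h1 : i ∈ cubeI y := h ▸ mem_cubeI.mpr hi
    rw [hi, mem_cubeI.mp h1]
  · have hi' : y i ≠ ∞ := fun h' => hi (mem_cubeI.mp (h ▸ mem_cubeI.mpr h' : i ∈ cubeI x))
    rw [← hx i hi, hy i hi']

theorem isClopen_cubeV (q : ι → OnePoint D) : IsClopen (cubeV q) := by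
  have : cubeV q = ⋂ i, (fun x => x i) ⁻¹' {z | q i ≠ ∞ → z = q i} := by
    ext x; simp [cubeV]
  rw [this]
  refine isClopen_iInter_of_finite fun i => IsClopen.preimage ?_ (continuous_apply i)
  induction h : q i using OnePoint.rec with
  | infty => simpa using isClopen_univ
  | coe d =>
    have : {z : OnePoint D | (d : OnePoint D) ≠ ∞ → z = d} = {(d : OnePoint D)} := by
      ext z; simp
    rw [this]
    refine ⟨isClosed_singleton, ?_⟩
    rw [← Set.image_singleton]
    exact OnePoint.isOpenMap_coe _ (isOpen_discrete _)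

variable (D ι) in
/-- the cube as a space with a neighbourhood assignment. -/
noncomputable def cubeP : PS (ι → OnePoint D) where
  V := cubeV
  rk := fun q => (cubeI q).card
  H := Fintype.card ι + 1
  N := 2 ^ Fintype.card ι
  rs :=
    { clopen := isClopen_cubeV
      self := fun _ _ _ => rfl
      lt := fun x y hy hne => by
        refine Finset.card_lt_card ⟨fun i hi => ?_, fun h => hne ?_⟩
        · rw [mem_cubeI] at hi ⊢
          by_contra h
          exact h (hy i h ▸ hi)
        · funext i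
          by_cases hi : x i = ∞
          · rw [hi, mem_cubeI.mp (h (mem_cubeI.mpr hi))]
          · exact hy i hi
      bd := fun x => Nat.lt_succ_of_le (Finset.card_le_univ _) }
  trans := fun x y hy z hz i hi => by
    rw [← hy i hi]
    exact hz i (by rw [hy i hi]; exact hi)
  ord := fun y S hS => by
    classical
    rw [← Fintype.card_finset]
    exact Finset.card_le_card_of_injOn cubeI (fun _ _ => Finset.mem_coe.mpr (Finset.mem_univ _))
      fun a ha b hb h => cube_eq_of (hS a ha) (hS b hb) h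

omit [Fintype ι] in
theorem cube_nhds [Finite ι] (q : ι → OnePoint D) {W : Set (ι → OnePoint D)} (hW : W ∈ 𝓝 q) :
    ∃ G : Finset D, ∀ x : ι → D, (∀ i, q i = ∞ ∨ q i = x i) → (∀ i, q i = ∞ → x i ∉ G) →
      (fun i => (x i : OnePoint D)) ∈ W := by
  rw [nhds_pi, Filter.mem_pi] at hW
  obtain ⟨I, -, t, ht, hI⟩ := hW
  have hfin : ∀ i, q i = ∞ → {d : D | (d : OnePoint D) ∉ t i}.Finite := fun i hi => by
    have := ht i
    rw [hi, OnePoint.nhds_infty_eq, mem_sup, mem_map, coclosedCompact_eq_cocompact,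
      cocompact_eq_cofinite, mem_cofinite] at this
    exact this.1
  have hG : (⋃ i, ⋃ (_ : q i = ∞), {d : D | (d : OnePoint D) ∉ t i}).Finite :=
    finite_iUnion fun i => finite_iUnion fun hi => hfin i hi
  refine ⟨hG.toFinset, fun x hx hxG => hI fun i _ => ?_⟩
  by_cases hi : q i = ∞
  · by_contra h
    exact hxG i hi (hG.mem_toFinset.mpr (mem_iUnion.mpr ⟨i, mem_iUnion.mpr ⟨hi, h⟩⟩))
  · have := mem_of_mem_nhds (ht i)
    rwa [(hx i).resolve_left hi] at this

end Space

theorem PS.cube_len {Ω : Type} [TopologicalSpace Ω] (P : PS Ω) {B : Set Ω} :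
    ∀ (h : Ω) (t : List Ω), IsCh P.le B (h :: t) → P.rk h + t.length < P.H
  | h, [], _ => P.rs.bd h
  | h, y :: t, hc => by
    have h1 := PS.cube_len P y t hc.2
    have h2 := P.rs.lt y h hc.1.1 hc.1.2
    simp only [List.length_cons]
    omega

end Pool.Agent.MP_75da70_an.H8
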