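import Pool.Agent.MP_75da70_an.H54.CubeA
import Pool.Agent.MP_75da70_an.H72.PMod
import Pool.Agent.MP_75da70_an.H88.Fibre
import Pool.Agent.MP_75da70_an.H7.Gen

/-
No module retraction onto the cycles exists for a large cube.
-/

namespace Pool.Agent.MP_75da70_an.H8

open Filter Topology Set H7 OnePoint

/-- above rank zero there are no cycles of top length. -/
theorem PS.cube_Zf {Ω : Type} [TopologicalSpace Ω] (P : PS Ω) {B : Set Ω} {n : ℕ}
    (hH : P.H ≤ n + 2) {q : Ω} (hq : 1 ≤ P.rk q) {ζ : FL Ω} (hζ : ζ ∈ Zf P.le B n q) : ζ = 0 := by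
  obtain ⟨h1, h2⟩ := hF_mem P.pord hζ
  have : hF q ζ = 0 := by
    ext c
    refine (Finsupp.mem_supported' _ _).mp h1 c ?_
    rintro ⟨hc, hl, h, t, rfl, hle⟩
    have h3 := P.cube_len h t hc
    have h4 : P.rk q ≤ P.rk h := by
      by_cases hqh : q = h
      · rw [hqh]
      · exact (P.rs.lt h q hle hqh).le
    simp only [List.length_cons] at hl
    omega
  rw [← h2, this, map_zero]

theorem cube_no_retraction {D : Type} [TopologicalSpace D] [DiscreteTopology D] (n : ℕ)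
    (hD : Cardinal.aleph (n : Ordinal.{0}) ≤ Cardinal.mk D) (P : PS (Fin (n + 1) → OnePoint D))
    (hP : P = cubeP D (Fin (n + 1))) (B : Set (Fin (n + 1) → OnePoint D)) (hB : B = P.L (n + 1))
    (ρ : (P.PK B n).carrier →L[ℂ] (P.ZK B n).carrier)
    (hρ : Mr _ _ ρ) (hj : ∀ z, ρ (P.jK B n z) = z) : False := by
  classical
  have hH : P.H ≤ n + 2 := by simp [hP, cubeP]
  have hV : P.V = cubeV := by rw [hP]; rfl
  have hrk : ∀ q, P.rk q = (cubeI q).card := fun q => by rw [hP]; rfl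
  set η : ℝ := 1 / (2 * (P.N : ℝ) ^ (n + 1) + 1) with hη
  have hη0 : 0 < η := by positivity
  let ψ : (PM (P.Uc B n)).carrier →L[ℂ] (LF (Fin (n + 1) → OnePoint D)
      (List (Fin (n + 1) → OnePoint D))).carrier := (P.zS B n).subtypeL.comp ρ
  have hψ : Mr (PM (P.Uc B n)) (LF _ _) ψ := fun a u => congrArg Subtype.val (hρ a u)
  have hW : ∀ q, ∃ W ∈ 𝓝 q, 1 ≤ P.rk q → ∀ x ∈ W, ∀ c ∈ Sx P.le B n q, ∀ c',
      ‖ψ (eP (P.Uc B n) c) c' x‖ ≤ η := by
    intro q
    by_cases hq : 1 ≤ P.rk q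
    · have : ∀ᶠ x in 𝓝 q, ∀ c ∈ Sx P.le B n q, ∀ c', ‖ψ (eP (P.Uc B n) c) c' x‖ ≤ η := by
        rw [eventually_all_finite (P.finite_Sx B n q)]
        intro c _
        have hz := P.mem_zS.mp (ρ (eP (P.Uc B n) c)).2
        filter_upwards [c0_cont (u := ψ (eP (P.Uc B n) c)) hz.1.1 q hη0] with x hx c'
        have h0 : ψ (eP (P.Uc B n) c) c' q = 0 := by
          by_cases hc' : c' ∈ Sx P.le B n q
          · have := DFunLike.congr_fun (P.cube_Zf hH hq (hz.2 q)) c'
            rwa [P.fib_apply, if_pos hc'] at this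
          · exact (mem_pmS.mp hz.1).2 c' q hc'
        simpa [h0] using hx c'
      exact ⟨_, this, fun _ x hx => hx⟩
    · exact ⟨univ, univ_mem, fun h => absurd h hq⟩
  choose W hWn hW using hW
  choose G hG using fun q => cube_nhds q (hWn q)
  obtain ⟨x, -, hx⟩ := cube_free n (univ : Set D) (by simpa using hD) G
  let e : Finset (Fin (n + 1)) → Fin (n + 1) → OnePoint D := fun S i => if i ∈ S then x i else ∞
  have heI : ∀ S, cubeI (e S) = Sᶜ := fun S => by
    ext i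
    by_cases hi : i ∈ S <;> simp [mem_cubeI, e, hi]
  have he : Function.Injective e := fun S S' h =>
    compl_injective (by rw [← heI, ← heI, h])
  have hm : ∀ S i, P.le (e (S.erase i)) (e S) := fun S i => by
    change e S ∈ P.V _
    rw [hV]
    intro k hk
    have : k ∈ S.erase i := by
      by_contra h
      exact hk (if_neg h)
    simp only [e, if_pos this, if_pos (Finset.mem_of_mem_erase this)]
  have h0 : e ∅ ∈ B := by
    rw [hB]
    change P.rk _ = _
    rw [hrk, heI]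
    simp
  have htop : e Finset.univ = fun i => (x i : OnePoint D) := by
    funext i; simp [e]
  have hxW : ∀ S, e Finset.univ ∈ W (e S) := fun S => by
    rw [htop]
    have h1 : ∀ i, e S i = ∞ ∨ e S i = x i := fun i => by
      by_cases hi : i ∈ S <;> simp [e, hi]
    exact hG (e S) x h1 (hx (e S) h1)
  obtain ⟨ζ, hζ0, hζ, hsup⟩ := cube_cycle (le := P.le) he hm h0 n Finset.univ (by simp)
  obtain ⟨u, hu, -, huz⟩ := P.exists_const B n (P.rs.clopen (e Finset.univ)) Subset.rfl ζ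
  obtain ⟨c₀, -, hc₀⟩ := Finset.exists_max_image ζ.support (fun c => ‖ζ c‖)
    (Finsupp.support_nonempty_iff.mpr hζ0)
  have hmax : ∀ c, ‖ζ c‖ ≤ ‖ζ c₀‖ := fun c => by
    by_cases hc : c ∈ ζ.support
    · exact hc₀ c hc
    · rw [Finsupp.notMem_support_iff.mp hc, norm_zero]; exact norm_nonneg _
  have hpos : 0 < ‖ζ c₀‖ := by
    obtain ⟨c, hc⟩ := Finsupp.ne_iff.mp hζ0
    exact (norm_pos_iff.mpr hc).trans_le (hmax c)
  have hux : ∀ c, u c (e Finset.univ) = ζ c := fun c => by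
    rw [hu, ind_of_mem (P.rs.clopen _) (P.rs.self _), one_mul]
  have hfib := PM.fibre (P.cf B n) ψ hψ (P.jK B n ⟨u, huz hζ⟩) (e Finset.univ)
    (P.finite_Sx B n (e Finset.univ)).toFinset
    (fun c hc => (Finite.mem_toFinset _).mpr hc) c₀
  have hl : ψ (P.jK B n ⟨u, huz hζ⟩) = u := congrArg Subtype.val (hj ⟨u, huz hζ⟩)
  rw [hl, hux] at hfib
  have hcard := card_Sx (B := B) P.pord n (e Finset.univ) (P.finite_Sx B n (e Finset.univ)).toFinset
    fun c hc => (Finite.mem_toFinset _).mp hc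
  have hb : ‖ζ c₀‖ ≤ (P.finite_Sx B n (e Finset.univ)).toFinset.card • (‖ζ c₀‖ * η) := by
    conv_lhs => rw [hfib]
    refine (norm_sum_le _ _).trans (Finset.sum_le_card_nsmul _ _ _ fun c _ => ?_)
    rw [norm_mul]
    change ‖u c (e Finset.univ)‖ * _ ≤ _
    rw [hux]
    by_cases hc : ζ c = 0
    · rw [hc, norm_zero, zero_mul]; positivity
    · obtain ⟨i, -, h1, h2, t, rfl⟩ := hsup c hc
      refine mul_le_mul (hmax _) (hW (e (Finset.univ.erase i)) ?_ _ (hxW _) _
        ⟨h1, h2, _, _, rfl, P.pord.refl _⟩ c₀) (norm_nonneg _) (norm_nonneg _)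
      rw [hrk, heI]
      exact Finset.card_pos.mpr ⟨i, by simp⟩
  rw [nsmul_eq_mul] at hb
  have hc' : ((P.finite_Sx B n (e Finset.univ)).toFinset.card : ℝ) ≤ (P.N : ℝ) ^ (n + 1) := by
    exact_mod_cast hcard
  have h1 : (P.N : ℝ) ^ (n + 1) * η < 1 := by
    rw [hη, mul_one_div, div_lt_one (by positivity)]
    have : (0 : ℝ) ≤ (P.N : ℝ) ^ (n + 1) := by positivity
    linarith
  have h2 := mul_le_mul_of_nonneg_right hc' (mul_pos hpos hη0).le
  nlinarith

/-- the cube theorem from the exact sequences of syzygies. -/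
theorem exists_cube_of (hses : ∀ (Ω : Type) [TopologicalSpace Ω] [CompactSpace Ω] [T2Space Ω]
    [TotallyDisconnectedSpace Ω] (P : PS Ω) (B : Set Ω) (k : ℕ),
    ∃ σ, SES (P.Zs B (k + 1)) (P.PK B k) (P.Zs B k) (P.jK B k) σ) (n : ℕ) :
    ∃ (Ω : Type) (_ : TopologicalSpace Ω) (_ : CompactSpace Ω)
    (_ : T2Space Ω) (_ : TotallyDisconnectedSpace Ω) (P : PS Ω),
    P.H ≤ n + 2 ∧ ∃ j, ¬ Pj (P.Zs (P.L j) n) := by
  let D : Type := (Cardinal.aleph (n : Ordinal.{0})).out
  let _ : TopologicalSpace D := ⊥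
  have : DiscreteTopology D := ⟨rfl⟩
  refine ⟨Fin (n + 1) → OnePoint D, inferInstance, inferInstance, inferInstance, inferInstance,
    cubeP D (Fin (n + 1)), by simp [cubeP], n + 1, fun h => ?_⟩
  obtain ⟨σ, hσ⟩ := hses _ (cubeP D (Fin (n + 1))) ((cubeP D (Fin (n + 1))).L (n + 1)) n
  obtain ⟨ρ, hρ, hj⟩ := hσ.exists_retraction h
  exact cube_no_retraction n (Cardinal.mk_out _).ge _ rfl _ rfl ρ hρ hj

end Pool.Agent.MP_75da70_an.H8
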